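import Mathlib
import Pool.Agent.KK.StmtsB

/-! MP_747bc0_co, block B, row GBX: a non-trivial closed system gives the partition. -/

namespace Pool.Agent.KK.B.H45

open Function
open scoped Classical

/-- the constants of UNI and GBX -/
theorem consts (k : ℕ) (ν : ℝ) (hk : 2 ≤ k) (hν : 0 < ν) (hν8 : ν ≤ 1 / 8) :
    ∃ κ θ δ β : ℝ, 0 < κ ∧ 0 < θ ∧ 0 < δ ∧ 0 < β ∧ κ = ν ^ 2 / (3 * (k : ℝ)) ∧ θ ≤ 1 / 8 ∧
      15 * θ ≤ κ ∧ δ ≤ θ / 4 ∧ β ≤ 1 / 16 ∧ β ≤ θ ^ 2 / 22 ∧ 88 * (k : ℝ) * β ≤ θ ∧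
      (1 + (k : ℝ) / δ) ^ k * (4 * (k.factorial : ℝ) * (k : ℝ) ^ 2 * β) ≤ κ ∧
      12 * β ≤ ν ∧ β ≤ κ := by
  have hk0 : (2 : ℝ) ≤ (k : ℝ) := by exact_mod_cast hk
  have hkp : (0 : ℝ) < (k : ℝ) := by linarith
  obtain ⟨κ, hκ⟩ : ∃ κ : ℝ, κ = ν ^ 2 / (3 * (k : ℝ)) := ⟨_, rfl⟩
  have hκ0 : 0 < κ := by rw [hκ]; positivity
  have hκ1 : κ ≤ 1 := by
    rw [hκ, div_le_one (by positivity)]
    nlinarith
  obtain ⟨C, hC⟩ : ∃ C : ℝ, C = (1 + (k : ℝ) / (κ / 60)) ^ k *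
      (4 * (k.factorial : ℝ) * (k : ℝ) ^ 2) := ⟨_, rfl⟩
  have hC0 : 0 < C := by
    have h1 : (0 : ℝ) < (k.factorial : ℝ) := by exact_mod_cast Nat.factorial_pos k
    rw [hC]; positivity
  obtain ⟨β, hβ⟩ : ∃ β : ℝ, β = min (min (1 / 16) ((κ / 15) ^ 2 / 22))
      (min (min ((κ / 15) / (88 * (k : ℝ))) (κ / C)) (min (ν / 12) κ)) := ⟨_, rfl⟩
  have hβ0 : 0 < β := by
    rw [hβ]
    refine lt_min (lt_min (by norm_num) (by positivity))
      (lt_min (lt_min (by positivity) (by positivity)) (lt_min (by positivity) hκ0))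
  have b1 : β ≤ 1 / 16 := by rw [hβ]; exact (min_le_left _ _).trans (min_le_left _ _)
  have b2 : β ≤ (κ / 15) ^ 2 / 22 := by rw [hβ]; exact (min_le_left _ _).trans (min_le_right _ _)
  have b3 : β ≤ (κ / 15) / (88 * (k : ℝ)) := by
    rw [hβ]; exact (min_le_right _ _).trans ((min_le_left _ _).trans (min_le_left _ _))
  have b4 : β ≤ κ / C := by
    rw [hβ]; exact (min_le_right _ _).trans ((min_le_left _ _).trans (min_le_right _ _))
  have b5 : β ≤ ν / 12 := by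
    rw [hβ]; exact (min_le_right _ _).trans ((min_le_right _ _).trans (min_le_left _ _))
  have b6 : β ≤ κ := by
    rw [hβ]; exact (min_le_right _ _).trans ((min_le_right _ _).trans (min_le_right _ _))
  refine ⟨κ, κ / 15, κ / 60, β, hκ0, by positivity, by positivity, hβ0, hκ, by linarith,
    by linarith, by linarith, b1, b2, ?_, ?_, by linarith, b6⟩
  · rw [le_div_iff₀ (by positivity)] at b3
    linarith
  · rw [le_div_iff₀ hC0] at b4
    calc (1 + (k : ℝ) / (κ / 60)) ^ k * (4 * (k.factorial : ℝ) * (k : ℝ) ^ 2 * β)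
        = β * C := by rw [hC]; ring
      _ ≤ κ := b4

theorem gbx (hNsp : NspStmt) (hG0d : G0dStmt) (hLev : LevStmt) (hGlb : GlbStmt) (hRes : ResStmt)
    (hNtr : NtrStmt) : GbxStmt := by
  intro k ν0 hk hν0
  obtain ⟨ν, hν⟩ : ∃ ν : ℝ, ν = min ν0 (1 / 8) := ⟨_, rfl⟩
  have hνp : 0 < ν := by rw [hν]; exact lt_min hν0 (by norm_num)
  have hν8 : ν ≤ 1 / 8 := by rw [hν]; exact min_le_right _ _
  have hνν : ν ≤ ν0 := by rw [hν]; exact min_le_left _ _
  obtain ⟨κ, θ, δ, β, hκ, hθ, hδ, hβ, hκe, hθ8, h15, hδθ, b1, b2, b3, b4, b5, b6⟩ :=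
    consts k ν hk hνp hν8
  have hkp : (0 : ℝ) < (k : ℝ) := by
    have : 0 < k := by omega
    exact_mod_cast this
  have h3k : 3 * (k : ℝ) * κ ≤ ν ^ 2 := by
    rw [hκe]
    refine le_of_eq ?_
    field_simp
  refine ⟨β ^ 3, by positivity, ?_⟩
  intro V _ _ E D0 hS hDeg hI0 hC0 hT0
  have hlevD : ∀ D : Fin k → (Fin k → V) → Prop, Indep D → Closed E (β ^ 3) D →
      dens (fun a => ¬ lev δ (G0 E D β) k a) ≤ κ := by
    intro D hI hC
    have h1 := hG0d k V E D β hβ (by linarith) hI hC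
    have h2 := hLev k V (G0 E D β) δ k hδ
    refine h2.trans (le_trans ?_ b4)
    apply mul_le_mul_of_nonneg_left h1
    positivity
  have h01 : (⟨0, by omega⟩ : Fin k) ≠ ⟨1, by omega⟩ := by
    intro h
    have := congrArg Fin.val h
    simp at this
  have hT : ¬ Triv ν D0 := by
    intro h
    apply hT0
    rcases h with h | h
    · exact Or.inl fun i => (h i).trans hνν
    · exact Or.inr fun i => (h i).trans hνν
  have hex : ∃ a0 : Fin k → V, lev δ (G0 E D0 β) k a0 ∧ SS D0 ⟨0, by omega⟩ ⟨1, by omega⟩ a0 := by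
    by_contra hcon
    push Not at hcon
    exact hT (hNtr k V E D0 β δ κ ν ⟨0, by omega⟩ ⟨1, by omega⟩ hβ b1 b6 h3k hνp hν8 hS hDeg hI0
      h01 (hlevD D0 hI0 hC0) hcon)
  obtain ⟨a0, hlev0, hSS⟩ := hex
  refine ⟨nb E a0 ⟨0, by omega⟩, ?_, ?_⟩
  · obtain ⟨σ, hσ⟩ := hSS
    have hG : G0 E D0 β a0 := lev_le (Nat.zero_le k) hlev0
    have hne : σ.symm (⟨0, by omega⟩ : Fin k) ≠ σ.symm ⟨1, by omega⟩ := by
      intro h; exact h01 (σ.symm.injective h)
    obtain ⟨hst, hpl, -⟩ := hG σ _ _ hne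
    have h := (hNsp k V E D0 β (a0 ∘ σ) _ _ hβ b1 hS hDeg hne hst hpl hσ).2
    rw [nb_perm hS, Equiv.apply_symm_apply] at h
    linarith
  · intro D hI hC i W
    have hLD : dens (fun a => ¬ LineDet κ (nb E a0 ⟨0, by omega⟩) D a) ≤ κ := by
      refine le_trans (dens_mono ?_) (hlevD D hI hC)
      intro a ha hla
      apply ha
      have h := hGlb k V E D0 D β δ θ ⟨0, by omega⟩ ⟨1, by omega⟩ a0 a hβ b1 hθ hθ8 hδ.le hδθ b2 b3
        hS hDeg hI0 hI h01 hlev0 hSS hla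
      intro i l hil
      rcases h i l hil with h | h | h
      · exact Or.inl (h.trans (by linarith))
      · exact Or.inr (Or.inl (h.trans (by linarith)))
      · exact Or.inr (Or.inr (pm_mono (by linarith) h))
    have h := hRes k V (nb E a0 ⟨0, by omega⟩) D κ ν hκ.le hνp.le h3k hI hLD i W
    rcases h with h | h
    · exact Or.inl (h.trans hνν)
    · exact Or.inr (h.trans hνν)

end Pool.Agent.KK.B.H45
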